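import Pool.Agent.H41.CO.Defs

set_option autoImplicit false

/-!
# Cycle odd-covers (helper41), task PERMS (helper928): König's edge colouring theorem
-/

namespace Pool.Agent.H928.CO

open Pool.Agent.H41.CO
open Equiv

/-- A regular bipartite multigraph splits into perfect matchings. -/
theorem split {V E : Type} [Fintype V] [DecidableEq V] [DecidableEq E] (tail head : E → V)
    (D : ℕ) : ∀ S : Finset E, (∀ v, (S.filter fun e => tail e = v).card = D) →
      (∀ v, (S.filter fun e => head e = v).card = D) →
      ∃ c : E → ℕ, (∀ e ∈ S, c e < D) ∧ (∀ v, ∀ i < D, ∃ e ∈ S, tail e = v ∧ c e = i) ∧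
        (∀ v, ∀ i < D, ∃ e ∈ S, head e = v ∧ c e = i) ∧
        (∀ e ∈ S, ∀ e' ∈ S, tail e = tail e' → c e = c e' → e = e') ∧
        (∀ e ∈ S, ∀ e' ∈ S, head e = head e' → c e = c e' → e = e') := by
  induction D with
  | zero =>
    intro S h1 _
    have h0 : ∀ e, e ∉ S := by
      intro e he
      have h2 := h1 (tail e)
      rw [Finset.card_eq_zero] at h2
      have h3 : e ∈ S.filter fun e' => tail e' = tail e := Finset.mem_filter.2 ⟨he, rfl⟩
      rw [h2] at h3
      exact absurd h3 (Finset.notMem_empty e)
    refine ⟨fun _ => 0, fun e he => absurd he (h0 e), fun _ i hi => absurd hi (Nat.not_lt_zero i),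
      fun _ i hi => absurd hi (Nat.not_lt_zero i), fun e he => absurd he (h0 e),
      fun e he => absurd he (h0 e)⟩
  | succ D ih =>
    intro S h1 h2
    have hall : ∀ s : Finset V,
        s.card ≤ (s.biUnion fun v => (S.filter fun e => tail e = v).image head).card := by
      intro s
      have e1 : (S.filter fun e => tail e ∈ s).card = (D + 1) * s.card := by
        have hmt : Set.MapsTo tail ((S.filter fun e => tail e ∈ s : Finset E) : Set E)
            (s : Set V) := fun e he => (Finset.mem_filter.1 (Finset.mem_coe.1 he)).2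
        rw [Finset.card_eq_sum_card_fiberwise hmt]
        have : ∀ v ∈ s, ((S.filter fun e => tail e ∈ s).filter fun e => tail e = v).card =
            D + 1 := by
          intro v hv
          rw [← h1 v, Finset.filter_filter]
          congr 1
          apply Finset.filter_congr
          intro e _
          constructor
          · exact fun h => h.2
          · exact fun h => ⟨by rw [h]; exact hv, h⟩
        rw [Finset.sum_congr rfl this, Finset.sum_const, smul_eq_mul, mul_comm]
      have e2 : ∀ T : Finset V, (S.filter fun e => head e ∈ T).card = (D + 1) * T.card := by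
        intro T
        have hmt : Set.MapsTo head ((S.filter fun e => head e ∈ T : Finset E) : Set E)
            (T : Set V) := fun e he => (Finset.mem_filter.1 (Finset.mem_coe.1 he)).2
        rw [Finset.card_eq_sum_card_fiberwise hmt]
        have : ∀ v ∈ T, ((S.filter fun e => head e ∈ T).filter fun e => head e = v).card =
            D + 1 := by
          intro v hv
          rw [← h2 v, Finset.filter_filter]
          congr 1
          apply Finset.filter_congr
          intro e _
          constructor
          · exact fun h => h.2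
          · exact fun h => ⟨by rw [h]; exact hv, h⟩
        rw [Finset.sum_congr rfl this, Finset.sum_const, smul_eq_mul, mul_comm]
      have e3 : (S.filter fun e => tail e ∈ s).card ≤
          (S.filter fun e => head e ∈
            (s.biUnion fun v => (S.filter fun e => tail e = v).image head)).card := by
        apply Finset.card_le_card
        intro e he
        rw [Finset.mem_filter] at he ⊢
        refine ⟨he.1, ?_⟩
        rw [Finset.mem_biUnion]
        exact ⟨tail e, he.2, Finset.mem_image.2 ⟨e, Finset.mem_filter.2 ⟨he.1, rfl⟩, rfl⟩⟩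
      rw [e1, e2] at e3
      exact Nat.le_of_mul_le_mul_left e3 (Nat.succ_pos D)
    obtain ⟨f, hf, hft⟩ := (Finset.all_card_le_biUnion_card_iff_exists_injective _).1 hall
    have hg : ∀ v, ∃ e, e ∈ S ∧ tail e = v ∧ head e = f v := by
      intro v
      have := hft v
      rw [Finset.mem_image] at this
      obtain ⟨e, he, he2⟩ := this
      rw [Finset.mem_filter] at he
      exact ⟨e, he.1, he.2, he2⟩
    choose g hgS hgt hgh using hg
    have hfs : Function.Surjective f := Finite.surjective_of_injective hf
    obtain ⟨c, c1, c2, c3, c4, c5⟩ := ih (S.filter fun e => e ≠ g (tail e)) (by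
      intro v
      have e1 : ((S.filter fun e => e ≠ g (tail e)).filter fun e => tail e = v) =
          (S.filter fun e => tail e = v).erase (g v) := by
        ext e
        simp only [Finset.mem_filter, Finset.mem_erase]
        constructor
        · rintro ⟨⟨a1, a2⟩, a3⟩
          rw [a3] at a2
          exact ⟨a2, a1, a3⟩
        · rintro ⟨a2, a1, a3⟩
          refine ⟨⟨a1, ?_⟩, a3⟩
          rw [a3]
          exact a2
      rw [e1, Finset.card_erase_of_mem (Finset.mem_filter.2 ⟨hgS v, hgt v⟩), h1]
      rfl) (by
      intro w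
      obtain ⟨v, rfl⟩ := hfs w
      have e1 : ((S.filter fun e => e ≠ g (tail e)).filter fun e => head e = f v) =
          (S.filter fun e => head e = f v).erase (g v) := by
        ext e
        simp only [Finset.mem_filter, Finset.mem_erase]
        constructor
        · rintro ⟨⟨a1, a2⟩, a3⟩
          refine ⟨?_, a1, a3⟩
          intro h
          apply a2
          rw [h, hgt]
        · rintro ⟨a2, a1, a3⟩
          refine ⟨⟨a1, ?_⟩, a3⟩
          intro h
          apply a2
          have h3 : f (tail e) = f v := by
            rw [← hgh, ← h, a3]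
          rw [h, hf h3]
      rw [e1, Finset.card_erase_of_mem (Finset.mem_filter.2 ⟨hgS v, hgh v⟩), h2]
      rfl)
    have hc : ∀ e ∈ S, (e = g (tail e) ∧ (if e = g (tail e) then D else c e) = D) ∨
        (e ∈ (S.filter fun e => e ≠ g (tail e)) ∧ c e < D ∧
          (if e = g (tail e) then D else c e) = c e) := by
      intro e he
      by_cases h : e = g (tail e)
      · left
        exact ⟨h, if_pos h⟩
      · right
        have h' : e ∈ (S.filter fun e => e ≠ g (tail e)) := Finset.mem_filter.2 ⟨he, h⟩
        exact ⟨h', c1 e h', if_neg h⟩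
    refine ⟨fun e => if e = g (tail e) then D else c e, ?_, ?_, ?_, ?_, ?_⟩
    · intro e he
      rcases hc e he with h | h
      · show (if e = g (tail e) then D else c e) < D + 1
        rw [h.2]
        exact Nat.lt_succ_self D
      · show (if e = g (tail e) then D else c e) < D + 1
        rw [h.2.2]
        exact Nat.lt_succ_of_lt h.2.1
    · intro v i hi
      rcases Nat.lt_succ_iff_lt_or_eq.1 hi with h | h
      · obtain ⟨e, he, he1, he2⟩ := c2 v i h
        have he' := Finset.mem_filter.1 he
        refine ⟨e, he'.1, he1, ?_⟩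
        show (if e = g (tail e) then D else c e) = i
        rw [if_neg he'.2, he2]
      · refine ⟨g v, hgS v, hgt v, ?_⟩
        show (if g v = g (tail (g v)) then D else c (g v)) = i
        rw [hgt, if_pos rfl, h]
    · intro w i hi
      rcases Nat.lt_succ_iff_lt_or_eq.1 hi with h | h
      · obtain ⟨e, he, he1, he2⟩ := c3 w i h
        have he' := Finset.mem_filter.1 he
        refine ⟨e, he'.1, he1, ?_⟩
        show (if e = g (tail e) then D else c e) = i
        rw [if_neg he'.2, he2]
      · obtain ⟨v, rfl⟩ := hfs w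
        refine ⟨g v, hgS v, hgh v, ?_⟩
        show (if g v = g (tail (g v)) then D else c (g v)) = i
        rw [hgt, if_pos rfl, h]
    · intro e he e' he' ht hcc
      change (if e = g (tail e) then D else c e) = (if e' = g (tail e') then D else c e') at hcc
      rcases hc e he with h | h <;> rcases hc e' he' with h' | h'
      · rw [h.1, h'.1, ht]
      · rw [h.2, h'.2.2] at hcc
        have := h'.2.1
        omega
      · rw [h.2.2, h'.2] at hcc
        have := h.2.1
        omega
      · rw [h.2.2, h'.2.2] at hcc
        exact c4 e h.1 e' h'.1 ht hcc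
    · intro e he e' he' ht hcc
      change (if e = g (tail e) then D else c e) = (if e' = g (tail e') then D else c e') at hcc
      rcases hc e he with h | h <;> rcases hc e' he' with h' | h'
      · have h3 : f (tail e) = f (tail e') := by
          rw [← hgh, ← hgh, ← h.1, ← h'.1, ht]
        rw [h.1, h'.1, hf h3]
      · rw [h.2, h'.2.2] at hcc
        have := h'.2.1
        omega
      · rw [h.2.2, h'.2] at hcc
        have := h.2.1
        omega
      · rw [h.2.2, h'.2.2] at hcc
        exact c5 e h.1 e' h'.1 ht hcc

theorem sum_fib {V : Type} [Fintype V] [DecidableEq V] (n : V → ℕ) (v : V) :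
    ∑ x : (Σ w, Fin (n w)), (if x.1 = v then 1 else 0) = n v := by
  rw [Fintype.sum_sigma]
  rw [Finset.sum_eq_single v]
  · simp
  · intro w _ hw
    simp [hw]
  · intro h
    exact absurd (Finset.mem_univ v) h

theorem sum_arc {V : Type} [DecidableEq V] (A : Finset (V × V)) (g : V × V → V) (v : V) :
    ∑ a : {a // a ∈ A}, (if g a.1 = v then 1 else 0) = (A.filter fun a => g a = v).card := by
  rw [Finset.card_filter, ← Finset.sum_coe_sort A (fun a => if g a = v then 1 else 0)]

theorem sum_out {V : Type} [Fintype V] [DecidableEq V] (A : Finset (V × V)) :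
    ∑ v, out A v = A.card := by
  unfold out
  exact (Finset.card_eq_sum_card_fiberwise (f := fun a : V × V => a.1) (s := A)
    (t := Finset.univ) (fun a _ => Finset.mem_coe.2 (Finset.mem_univ _))).symm

theorem sum_inn {V : Type} [Fintype V] [DecidableEq V] (A : Finset (V × V)) :
    ∑ v, inn A v = A.card := by
  unfold inn
  exact (Finset.card_eq_sum_card_fiberwise (f := fun a : V × V => a.2) (s := A)
    (t := Finset.univ) (fun a _ => Finset.mem_coe.2 (Finset.mem_univ _))).symm

/-- **PERMS.** -/
theorem perms : S_PERMS := by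
  intro V _ _ D A l hD hA ho hi
  -- padding
  let sp : V → ℕ := fun v => D - (out A v + l v)
  let sm : V → ℕ := fun v => D - (inn A v + l v)
  have hsp : ∀ v, out A v + l v + sp v = D := fun v => Nat.add_sub_cancel' (ho v)
  have hsm : ∀ v, inn A v + l v + sm v = D := fun v => Nat.add_sub_cancel' (hi v)
  have hcard : Fintype.card (Σ v, Fin (sp v)) = Fintype.card (Σ v, Fin (sm v)) := by
    rw [Fintype.card_sigma, Fintype.card_sigma]
    simp only [Fintype.card_fin]
    have h1 : ∑ v, (out A v + l v + sp v) = ∑ v, (inn A v + l v + sm v) :=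
      Finset.sum_congr rfl fun v _ => by rw [hsp, hsm]
    simp only [Finset.sum_add_distrib] at h1
    rw [sum_out, sum_inn] at h1
    omega
  let φ : (Σ v, Fin (sp v)) ≃ (Σ v, Fin (sm v)) := Fintype.equivOfCardEq hcard
  let E : Type := {a // a ∈ A} ⊕ ((Σ v, Fin (l v)) ⊕ (Σ v, Fin (sp v)))
  let tail : E → V := Sum.elim (fun a => a.1.1) (Sum.elim (fun x => x.1) (fun x => x.1))
  let head : E → V := Sum.elim (fun a => a.1.2) (Sum.elim (fun x => x.1) (fun x => (φ x).1))
  have : DecidableEq E := Classical.decEq E
  have ht : ∀ v, ((Finset.univ : Finset E).filter fun e => tail e = v).card = D := by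
    intro v
    rw [Finset.card_filter]
    have h1 : ∑ e : E, (if tail e = v then 1 else 0) =
        ∑ a : {a // a ∈ A}, (if a.1.1 = v then 1 else 0) +
        (∑ x : (Σ w, Fin (l w)), (if x.1 = v then 1 else 0) +
          ∑ x : (Σ w, Fin (sp w)), (if x.1 = v then 1 else 0)) := by
      rw [Fintype.sum_sum_type, Fintype.sum_sum_type]
      rfl
    rw [h1, sum_arc A (fun a => a.1), sum_fib l, sum_fib sp, ← add_assoc]
    exact hsp v
  have hh : ∀ v, ((Finset.univ : Finset E).filter fun e => head e = v).card = D := by
    intro v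
    rw [Finset.card_filter]
    have h1 : ∑ e : E, (if head e = v then 1 else 0) =
        ∑ a : {a // a ∈ A}, (if a.1.2 = v then 1 else 0) +
        (∑ x : (Σ w, Fin (l w)), (if x.1 = v then 1 else 0) +
          ∑ x : (Σ w, Fin (sp w)), (if (φ x).1 = v then 1 else 0)) := by
      rw [Fintype.sum_sum_type, Fintype.sum_sum_type]
      rfl
    have h2 : ∑ x : (Σ w, Fin (sp w)), (if (φ x).1 = v then 1 else 0) =
        ∑ y : (Σ w, Fin (sm w)), (if y.1 = v then 1 else 0) :=
      Equiv.sum_comp φ (fun y : (Σ w, Fin (sm w)) => if y.1 = v then 1 else 0)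
    rw [h1, h2, sum_arc A (fun a => a.2), sum_fib l, sum_fib sm, ← add_assoc]
    exact hsm v
  obtain ⟨c, c1, c2, c3, c4, c5⟩ := split tail head D Finset.univ ht hh
  have c1' : ∀ e, c e < D := fun e => c1 e (Finset.mem_univ e)
  -- the edge with given tail and colour
  have hex : ∀ (i : Fin D) (v : V), ∃ e, tail e = v ∧ c e = i := by
    intro i v
    obtain ⟨e, _, h⟩ := c2 v i i.2
    exact ⟨e, h⟩
  choose ed ed1 ed2 using hex
  have hed : ∀ (i : Fin D) (e : E), c e = i → ed i (tail e) = e := by
    intro i e h
    exact c4 _ (Finset.mem_univ _) _ (Finset.mem_univ _) (ed1 i (tail e)) (by rw [ed2, h])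
  have hbij : ∀ i : Fin D, Function.Bijective fun v => head (ed i v) := by
    intro i
    apply Function.Surjective.bijective_of_finite
    intro w
    obtain ⟨e, _, h1, h2⟩ := c3 w i i.2
    refine ⟨tail e, ?_⟩
    show head (ed i (tail e)) = w
    rw [hed i e h2, h1]
  let τ : Fin D → Perm V := fun i => Equiv.ofBijective _ (hbij i)
  have hτ : ∀ i v, τ i v = head (ed i v) := fun i v => rfl
  let col : V × V → Fin D := fun a => if h : a ∈ A then ⟨c (Sum.inl ⟨a, h⟩), c1' _⟩ else ⟨0, hD⟩
  have hcol : ∀ a (h : a ∈ A), col a = ⟨c (Sum.inl ⟨a, h⟩), c1' _⟩ := fun a h => dif_pos h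
  -- the three kinds of edges
  have kinds : ∀ (i : Fin D) (v : V),
      (τ i v = v) ∨ ((v, τ i v) ∈ A ∧ col (v, τ i v) = i) ∨
        ∃ x : (Σ w, Fin (sp w)), ed i v = Sum.inr (Sum.inr x) := by
    intro i v
    have h1 := ed1 i v
    have h2 := ed2 i v
    have h3 := hτ i v
    rcases hE : ed i v with a | (x | x)
    · right
      left
      rw [hE] at h1 h2 h3
      have h4 : (v, τ i v) = a.1 := by
        rw [h3, ← h1]
        rfl
      rw [h4]
      refine ⟨a.2, ?_⟩
      rw [hcol a.1 a.2]
      exact Fin.ext h2
    · left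
      rw [hE] at h1 h3
      rw [h3, ← h1]
      rfl
    · right
      right
      exact ⟨x, rfl⟩
  refine ⟨τ, col, ?_, ?_, ?_⟩
  · intro a ha
    rw [hτ, hcol a ha]
    have h1 := hed ⟨c (Sum.inl ⟨a, ha⟩), c1' _⟩ (Sum.inl ⟨a, ha⟩) rfl
    have h2 : ed ⟨c (Sum.inl ⟨a, ha⟩), c1' _⟩ a.1 = Sum.inl ⟨a, ha⟩ := h1
    rw [h2]
    rfl
  · intro v
    have hsub : {i | τ i v ≠ v ∧ ¬ ((v, τ i v) ∈ A ∧ col (v, τ i v) = i)} ⊆
        Set.range (fun j : Fin (sp v) =>
          (⟨c (Sum.inr (Sum.inr ⟨v, j⟩)), c1' _⟩ : Fin D)) := by
      rintro i ⟨hi1, hi2⟩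
      rcases kinds i v with h | h | ⟨x, hx⟩
      · exact absurd h hi1
      · exact absurd h hi2
      · have h1 := ed1 i v
        have h2 := ed2 i v
        rw [hx] at h1 h2
        obtain ⟨w, j⟩ := x
        have h3 : w = v := h1
        subst h3
        exact ⟨j, Fin.ext h2⟩
    have hle : {i | τ i v ≠ v ∧ ¬ ((v, τ i v) ∈ A ∧ col (v, τ i v) = i)}.ncard ≤ sp v := by
      refine (Set.ncard_le_ncard hsub (Set.toFinite _)).trans ?_
      rw [← Set.image_univ]
      refine (Set.ncard_image_le (Set.toFinite _)).trans ?_
      rw [Set.ncard_univ, Nat.card_eq_fintype_card, Fintype.card_fin]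
    have := hsp v
    omega
  · intro v
    have hsub : {i | (τ i).symm v ≠ v ∧ ¬ (((τ i).symm v, v) ∈ A ∧ col ((τ i).symm v, v) = i)} ⊆
        Set.range (fun j : Fin (sm v) =>
          (⟨c (Sum.inr (Sum.inr (φ.symm ⟨v, j⟩))), c1' _⟩ : Fin D)) := by
      rintro i ⟨hi1, hi2⟩
      obtain ⟨u, hu⟩ : ∃ u, u = (τ i).symm v := ⟨_, rfl⟩
      rw [← hu] at hi1 hi2
      have hv : τ i u = v := by rw [hu, Equiv.apply_symm_apply]
      rw [← hv] at hi1 hi2
      rcases kinds i u with h | h | ⟨x, hx⟩
      · exact absurd h.symm hi1
      · exact absurd h hi2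
      · have h2 := ed2 i u
        have h3 := hτ i u
        rw [hx] at h2 h3
        rw [hv] at h3
        have h4 : (φ x).1 = v := h3.symm
        obtain ⟨y, hy⟩ : ∃ y, y = φ x := ⟨_, rfl⟩
        rw [← hy] at h4
        have hx' : x = φ.symm y := by rw [hy, Equiv.symm_apply_apply]
        obtain ⟨w, j⟩ := y
        have h5 : w = v := h4
        subst h5
        refine ⟨j, Fin.ext ?_⟩
        rw [hx'] at h2
        exact h2
    have hle : {i | (τ i).symm v ≠ v ∧
        ¬ (((τ i).symm v, v) ∈ A ∧ col ((τ i).symm v, v) = i)}.ncard ≤ sm v := by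
      refine (Set.ncard_le_ncard hsub (Set.toFinite _)).trans ?_
      rw [← Set.image_univ]
      refine (Set.ncard_image_le (Set.toFinite _)).trans ?_
      rw [Set.ncard_univ, Nat.card_eq_fintype_card, Fintype.card_fin]
    have := hsm v
    omega

end Pool.Agent.H928.CO
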